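import Pool.Agent.Helper43.PW.DimR
import Pool.Agent.Helper81.PX.Defs

/-!
Project PX (MP_b8862a_ag), blocks PX-4, PX-4': Weyl's dimension formula, integral and half integral coordinates.
-/

set_option linter.unusedSectionVars false
set_option linter.unusedVariables false

open Module PF TF PW

namespace PX

variable {E : Type*} [NormedAddCommGroup E] [InnerProductSpace ℝ E] {Φ X : Finset E} {m n : ℕ} {l v : E}

theorem PdR_eq43 (d m : ℕ) {x : Fin m → ℝ} {y : Fin m → ℤ} (hy : ∀ i, 2 * x i = y i) : PdR d m x = (Py d m y : ℝ) := by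
  unfold PdR Py
  simp only [hy]
  split_ifs <;> push_cast <;> rfl

theorem PaR_eq43 (m : ℕ) {x : Fin m → ℝ} {z : Fin m → ℤ} {t : ℝ} (hz : ∀ i, x i = z i + t) : PaR m x = (Pa m z : ℝ) := by
  unfold PaR Pa
  simp only [hz]
  push_cast
  refine Finset.prod_congr rfl fun i _ => Finset.prod_congr rfl fun j _ => ?_
  ring

/-- **PX-4** -/
theorem dim_all {e : Fin m → E} {c : ℝ} {d : ℕ} (h : Wd Φ X n l v) (F : Fr Φ m e c d) (hm : 2 ≤ m) :
    n ∈ AllD d m := by
  have hc := F.pos
  obtain ⟨σ, s, hs, h1, h2, h3, h4⟩ := dim_frR h F (k := fun i => cx e c l i) (by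
    intro i
    unfold cx
    field_simp)
  -- twice the coordinates
  obtain ⟨y, hy, hpar⟩ : ∃ y : Fin m → ℤ, (∀ i, 2 * ((s i : ℝ) * cx e c l (σ i)) = y i) ∧ ∀ i j, (2 : ℤ) ∣ y i - y j := by
    rcases F.int_or h.sat hm h.l_mem with ⟨z, hz⟩ | ⟨z, hz⟩
    · refine ⟨fun i => 2 * (s i * z (σ i)), ?_, ?_⟩
      · intro i
        rw [hz]
        push_cast
        ring
      · intro i j
        exact ⟨s i * z (σ i) - s j * z (σ j), by ring⟩
    · refine ⟨fun i => s i * (2 * z (σ i) + 1), ?_, ?_⟩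
      · intro i
        rw [hz]
        push_cast
        ring
      · intro i j
        have hodd : ∀ i, ∃ q, s i * (2 * z (σ i) + 1) = 2 * q + 1 := by
          intro i
          rcases hs i with h | h
          · exact ⟨z (σ i), by rw [h]; ring⟩
          · exact ⟨-z (σ i) - 1, by rw [h]; ring⟩
        obtain ⟨p, hp⟩ := hodd i
        obtain ⟨q, hq⟩ := hodd j
        simp only [hp, hq]
        exact ⟨p - q, by ring⟩
  refine ⟨y, ?_, hpar, ?_, ?_⟩
  · intro i j hij
    have h5 := h1 i j hij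
    have h6 : |(y j : ℝ)| ≤ y i := by
      rw [← hy i, ← hy j, abs_mul, abs_of_pos (by norm_num : (0 : ℝ) < 2)]
      linarith
    exact_mod_cast h6
  · rw [PdR_eq43 d m (x := fun i => (s i : ℝ) * cx e c l (σ i)) hy, PdR_eq43 d m (x := 0) (y := 0) (by
      intro i
      simp)] at h3
    exact_mod_cast h3
  · rw [PdR_eq43 d m (x := 0) (y := 0) (by
      intro i
      simp)] at h4
    have h5 : (0 : ℤ) < Py d m 0 := by exact_mod_cast h4
    exact h5.ne'

/-- **PX-4'** -/
theorem dim_allA {u : Fin m → E} (h : Wd Φ X n l v) (F : FrA Φ m u) (hm : 2 ≤ m) : n ∈ AllA m := by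
  obtain ⟨σ, h1, h2, h3⟩ := dim_frAR h F (k := fun i => (inner ℝ l (u i) : ℝ)) (fun i => rfl)
  set i0 : Fin m := ⟨m - 1, by omega⟩ with hi0
  -- the differences are integral
  have hint : ∀ i j, ∃ q : ℤ, (inner ℝ l (u i) : ℝ) - inner ℝ l (u j) = q := by
    intro i j
    by_cases hij : i = j
    · exact ⟨0, by rw [hij]; simp⟩
    · obtain ⟨q, hq⟩ := h.sat.int (u i - u j) ((F.mem _).2 ⟨i, j, hij, rfl⟩) l h.l_mem
      refine ⟨q, ?_⟩
      rw [← hq]
      have h5 : (inner ℝ (u i - u j) (u i - u j) : ℝ) = 2 := by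
        rw [inner_sub_right, frA_dif43 F, frA_dif43 F, if_pos rfl, if_neg (Ne.symm hij), if_neg hij, if_pos rfl]
        norm_num
      unfold co
      rw [h5, inner_sub_right]
      ring
  have hex : ∀ i, ∃ q : ℤ, (inner ℝ l (u (σ i)) : ℝ) = q + inner ℝ l (u (σ i0)) := by
    intro i
    obtain ⟨q, hq⟩ := hint (σ i) (σ i0)
    exact ⟨q, by linarith⟩
  choose z hz using hex
  refine ⟨z, ?_, ?_, ?_, ?_⟩
  · intro i j hij
    have h5 : (inner ℝ l (u (σ j)) : ℝ) ≤ inner ℝ l (u (σ i)) := h1 i j hij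
    have h7 := hz i
    have h8 := hz j
    have h6 : (z j : ℝ) ≤ z i := by linarith
    exact Int.cast_le.1 h6
  · intro i hi
    have h5 : i = i0 := Fin.ext (by simp only [hi0]; omega)
    have h6 := hz i
    rw [h5] at h6 ⊢
    have h7 : (z i0 : ℝ) = 0 := by linarith
    exact Int.cast_eq_zero.1 h7
  · rw [PaR_eq43 m (x := fun i => (inner ℝ l (u (σ i)) : ℝ)) hz, PaR_eq43 m (x := 0) (z := 0) (t := 0) (by
      intro i
      simp)] at h2
    exact_mod_cast h2
  · rw [PaR_eq43 m (x := 0) (z := 0) (t := 0) (by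
      intro i
      simp)] at h3
    have h5 : (0 : ℤ) < Pa m 0 := by exact_mod_cast h3
    exact h5.ne'

end PX
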